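import Pool.Agent.Strip051.Box.C2
import Pool.Agent.Strip051.Box.S30
import Pool.Agent.Strip051.LB.Fc.F2
import Pool.Agent.Strip051.LB.Fd.F2

/-! # LINE tight chart ChA00U_pm_012a -/

namespace Pool.Agent.Strip051.LB.ChA00U_pm_012a

open Pool.Agent.Strip051.Box Pool.Agent.Strip051.Box2

open Pool.Agent.Strip051.LB.Fd Pool.Agent.Strip051.LB.Fd.F2 Pool.Agent.Strip051.LB.Fc Pool.Agent.Strip051.LB.Fc.F2 Pool.Agent.Strip051.LB.Fn Pool.Agent.Strip051.LB.Fn.F2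

/-- coordinates of a point of the box -/
def In (b : Bx) (E : Pt) (x1 x2 : ℝ) : Prop :=
  (S : ℝ) * x1 = ((b.p1 : ℝ) - b.n1) + b.q1 * E.e1 ∧ (S : ℝ) * x2 = ((b.p2 : ℝ) - b.n2) + b.q2 * E.e2

variable {b : Bx} {E : Pt} {x1 x2 : ℝ}

def t0 (b : Bx) : TM := X1 b
noncomputable def v0 (x1 _x2 : ℝ) : ℝ := x1
theorem h0 (h : In b E x1 x2) : Enc S E (t0 b) (v0 x1 x2) := enc_X1 h.1

def t1 (b : Bx) : TM := X2 b
noncomputable def v1 (_x1 x2 : ℝ) : ℝ := x2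
theorem h1 (h : In b E x1 x2) : Enc S E (t1 b) (v1 x1 x2) := enc_X2 h.2

def t2 (b : Bx) : TM := tsq S (t1 b)
noncomputable def v2 (x1 x2 : ℝ) : ℝ := (v1 x1 x2) ^ 2
theorem h2 (h : In b E x1 x2) : Enc S E (t2 b) (v2 x1 x2) := enc_sq hS (h1 h)

def t3 (_b : Bx) : TM := tconst (Nat.mul 1 S) 0 0
noncomputable def v3 (_x1 _x2 : ℝ) : ℝ := ((1 : ℕ) : ℝ)
theorem h3 (_h : In b E x1 x2) : Enc S E (t3 b) (v3 x1 x2) := enc_nc E 1

def t4 (b : Bx) : TM := tsub (t3 b) (t2 b)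
noncomputable def v4 (x1 x2 : ℝ) : ℝ := v3 x1 x2 - v2 x1 x2
theorem h4 (h : In b E x1 x2) : Enc S E (t4 b) (v4 x1 x2) := enc_sub (h3 h) (h2 h)

def t5 (b : Bx) : TM := tsqrt S (t4 b)
noncomputable def v5 (x1 x2 : ℝ) : ℝ := Real.sqrt (v4 x1 x2)
theorem h5 (h : In b E x1 x2) : Enc S E (t5 b) (v5 x1 x2) := enc_sqrt hS (h4 h)

def t6 (b : Bx) : TM := tsub (t5 b) (t0 b)
noncomputable def v6 (x1 x2 : ℝ) : ℝ := v5 x1 x2 - v0 x1 x2
theorem h6 (h : In b E x1 x2) : Enc S E (t6 b) (v6 x1 x2) := enc_sub (h5 h) (h0 h)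

def t7 (_b : Bx) : TM := tconst 1859775393 0 1
noncomputable def v7 (_x1 _x2 : ℝ) : ℝ := Real.sqrt ((3 : ℕ) : ℝ)
theorem h7 (_h : In b E x1 x2) : Enc S E (t7 b) (v7 x1 x2) := enc_sqrtn E (by decide) (by decide)

def t8 (b : Bx) : TM := tscale 1 2 (t7 b)
noncomputable def v8 (x1 x2 : ℝ) : ℝ := ((1 : ℕ) : ℝ) / ((2 : ℕ) : ℝ) * v7 x1 x2
theorem h8 (h : In b E x1 x2) : Enc S E (t8 b) (v8 x1 x2) := enc_scale 1 (by norm_num) (h7 h)

def t9 (b : Bx) : TM := tsq S (t0 b)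
noncomputable def v9 (x1 x2 : ℝ) : ℝ := (v0 x1 x2) ^ 2
theorem h9 (h : In b E x1 x2) : Enc S E (t9 b) (v9 x1 x2) := enc_sq hS (h0 h)

def t10 (b : Bx) : TM := tsub (t3 b) (t9 b)
noncomputable def v10 (x1 x2 : ℝ) : ℝ := v3 x1 x2 - v9 x1 x2
theorem h10 (h : In b E x1 x2) : Enc S E (t10 b) (v10 x1 x2) := enc_sub (h3 h) (h9 h)

def t11 (b : Bx) : TM := tsqrt S (t10 b)
noncomputable def v11 (x1 x2 : ℝ) : ℝ := Real.sqrt (v10 x1 x2)
theorem h11 (h : In b E x1 x2) : Enc S E (t11 b) (v11 x1 x2) := enc_sqrt hS (h10 h)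

def t13 (_b : Bx) : TM := tconst (Nat.div (Nat.mul 1 S) 2) 0 1
noncomputable def v13 (_x1 _x2 : ℝ) : ℝ := ((1 : ℕ) : ℝ) / ((2 : ℕ) : ℝ)
theorem h13 (_h : In b E x1 x2) : Enc S E (t13 b) (v13 x1 x2) := enc_rat E 1 (by norm_num)

def t15 (b : Bx) : TM := tscale 1 2 (t11 b)
noncomputable def v15 (x1 x2 : ℝ) : ℝ := ((1 : ℕ) : ℝ) / ((2 : ℕ) : ℝ) * v11 x1 x2
theorem h15 (h : In b E x1 x2) : Enc S E (t15 b) (v15 x1 x2) := enc_scale 1 (by norm_num) (h11 h)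

def t17 (b : Bx) : TM := tmul S (t0 b) (t8 b)
noncomputable def v17 (x1 x2 : ℝ) : ℝ := v0 x1 x2 * v8 x1 x2
theorem h17 (h : In b E x1 x2) : Enc S E (t17 b) (v17 x1 x2) := enc_mul hS (h0 h) (h8 h)

def t19 (b : Bx) : TM := tscale 1 2 (t0 b)
noncomputable def v19 (x1 x2 : ℝ) : ℝ := ((1 : ℕ) : ℝ) / ((2 : ℕ) : ℝ) * v0 x1 x2
theorem h19 (h : In b E x1 x2) : Enc S E (t19 b) (v19 x1 x2) := enc_scale 1 (by norm_num) (h0 h)

def t21 (b : Bx) : TM := tmul S (t11 b) (t8 b)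
noncomputable def v21 (x1 x2 : ℝ) : ℝ := v11 x1 x2 * v8 x1 x2
theorem h21 (h : In b E x1 x2) : Enc S E (t21 b) (v21 x1 x2) := enc_mul hS (h11 h) (h8 h)

def t22 (b : Bx) : TM := tsub (t21 b) (t19 b)
noncomputable def v22 (x1 x2 : ℝ) : ℝ := v21 x1 x2 - v19 x1 x2
theorem h22 (h : In b E x1 x2) : Enc S E (t22 b) (v22 x1 x2) := enc_sub (h21 h) (h19 h)

def t25 (b : Bx) : TM := tsub (t6 b) (t22 b)
noncomputable def v25 (x1 x2 : ℝ) : ℝ := v6 x1 x2 - v22 x1 x2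
theorem h25 (h : In b E x1 x2) : Enc S E (t25 b) (v25 x1 x2) := enc_sub (h6 h) (h22 h)

def t26 (b : Bx) : TM := tsq S (t6 b)
noncomputable def v26 (x1 x2 : ℝ) : ℝ := (v6 x1 x2) ^ 2
theorem h26 (h : In b E x1 x2) : Enc S E (t26 b) (v26 x1 x2) := enc_sq hS (h6 h)

def t27 (b : Bx) : TM := tsub (t3 b) (t26 b)
noncomputable def v27 (x1 x2 : ℝ) : ℝ := v3 x1 x2 - v26 x1 x2
theorem h27 (h : In b E x1 x2) : Enc S E (t27 b) (v27 x1 x2) := enc_sub (h3 h) (h26 h)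

def t28 (b : Bx) : TM := tsqrt S (t27 b)
noncomputable def v28 (x1 x2 : ℝ) : ℝ := Real.sqrt (v27 x1 x2)
theorem h28 (h : In b E x1 x2) : Enc S E (t28 b) (v28 x1 x2) := enc_sqrt hS (h27 h)

def t29 (b : Bx) : TM := tadd (t17 b) (t15 b)
noncomputable def v29 (x1 x2 : ℝ) : ℝ := v17 x1 x2 + v15 x1 x2
theorem h29 (h : In b E x1 x2) : Enc S E (t29 b) (v29 x1 x2) := enc_add (h17 h) (h15 h)

def t31 (b : Bx) : TM := tsub (t11 b) (t28 b)
noncomputable def v31 (x1 x2 : ℝ) : ℝ := v11 x1 x2 - v28 x1 x2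
theorem h31 (h : In b E x1 x2) : Enc S E (t31 b) (v31 x1 x2) := enc_sub (h11 h) (h28 h)

def t32 (b : Bx) : TM := tadd (t0 b) (t6 b)
noncomputable def v32 (x1 x2 : ℝ) : ℝ := v0 x1 x2 + v6 x1 x2
theorem h32 (h : In b E x1 x2) : Enc S E (t32 b) (v32 x1 x2) := enc_add (h0 h) (h6 h)

def t33 (b : Bx) : TM := tmul S (t7 b) (t0 b)
noncomputable def v33 (x1 x2 : ℝ) : ℝ := v7 x1 x2 * v0 x1 x2
theorem h33 (h : In b E x1 x2) : Enc S E (t33 b) (v33 x1 x2) := enc_mul hS (h7 h) (h0 h)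

def t34 (b : Bx) : TM := tsub (t11 b) (t33 b)
noncomputable def v34 (x1 x2 : ℝ) : ℝ := v11 x1 x2 - v33 x1 x2
theorem h34 (h : In b E x1 x2) : Enc S E (t34 b) (v34 x1 x2) := enc_sub (h11 h) (h33 h)

def t35 (b : Bx) : TM := tadd (t3 b) (t11 b)
noncomputable def v35 (x1 x2 : ℝ) : ℝ := v3 x1 x2 + v11 x1 x2
theorem h35 (h : In b E x1 x2) : Enc S E (t35 b) (v35 x1 x2) := enc_add (h3 h) (h11 h)

def t36 (b : Bx) : TM := tmul S (t34 b) (t35 b)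
noncomputable def v36 (x1 x2 : ℝ) : ℝ := v34 x1 x2 * v35 x1 x2
theorem h36 (h : In b E x1 x2) : Enc S E (t36 b) (v36 x1 x2) := enc_mul hS (h34 h) (h35 h)

def t37 (b : Bx) : TM := tsub (t35 b) (t33 b)
noncomputable def v37 (x1 x2 : ℝ) : ℝ := v35 x1 x2 - v33 x1 x2
theorem h37 (h : In b E x1 x2) : Enc S E (t37 b) (v37 x1 x2) := enc_sub (h35 h) (h33 h)

def t38 (b : Bx) : TM := tinv S (t37 b)
noncomputable def v38 (x1 x2 : ℝ) : ℝ := (v37 x1 x2)⁻¹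
theorem h38 (h : In b E x1 x2) : Enc S E (t38 b) (v38 x1 x2) := enc_inv hS (h37 h)

def t39 (b : Bx) : TM := tmul S (t36 b) (t38 b)
noncomputable def v39 (x1 x2 : ℝ) : ℝ := v36 x1 x2 * v38 x1 x2
theorem h39 (h : In b E x1 x2) : Enc S E (t39 b) (v39 x1 x2) := enc_mul hS (h36 h) (h38 h)

def t42 (b : Bx) : TM := tmul S (t7 b) (t6 b)
noncomputable def v42 (x1 x2 : ℝ) : ℝ := v7 x1 x2 * v6 x1 x2
theorem h42 (h : In b E x1 x2) : Enc S E (t42 b) (v42 x1 x2) := enc_mul hS (h7 h) (h6 h)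

def t43 (b : Bx) : TM := tsub (t42 b) (t28 b)
noncomputable def v43 (x1 x2 : ℝ) : ℝ := v42 x1 x2 - v28 x1 x2
theorem h43 (h : In b E x1 x2) : Enc S E (t43 b) (v43 x1 x2) := enc_sub (h42 h) (h28 h)

def t45 (b : Bx) : TM := tadd (t3 b) (t42 b)
noncomputable def v45 (x1 x2 : ℝ) : ℝ := v3 x1 x2 + v42 x1 x2
theorem h45 (h : In b E x1 x2) : Enc S E (t45 b) (v45 x1 x2) := enc_add (h3 h) (h42 h)

def t46 (b : Bx) : TM := tsub (t45 b) (t28 b)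
noncomputable def v46 (x1 x2 : ℝ) : ℝ := v45 x1 x2 - v28 x1 x2
theorem h46 (h : In b E x1 x2) : Enc S E (t46 b) (v46 x1 x2) := enc_sub (h45 h) (h28 h)

def t47 (b : Bx) : TM := tnat 2 (t46 b)
noncomputable def v47 (x1 x2 : ℝ) : ℝ := ((2 : ℕ) : ℝ) * v46 x1 x2
theorem h47 (h : In b E x1 x2) : Enc S E (t47 b) (v47 x1 x2) := enc_nat 2 (h46 h)

def t48 (b : Bx) : TM := tinv S (t47 b)
noncomputable def v48 (x1 x2 : ℝ) : ℝ := (v47 x1 x2)⁻¹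
theorem h48 (h : In b E x1 x2) : Enc S E (t48 b) (v48 x1 x2) := enc_inv hS (h47 h)

def t51 (b : Bx) : TM := tsq S (t31 b)
noncomputable def v51 (x1 x2 : ℝ) : ℝ := (v31 x1 x2) ^ 2
theorem h51 (h : In b E x1 x2) : Enc S E (t51 b) (v51 x1 x2) := enc_sq hS (h31 h)

def t52 (b : Bx) : TM := tsq S (t32 b)
noncomputable def v52 (x1 x2 : ℝ) : ℝ := (v32 x1 x2) ^ 2
theorem h52 (h : In b E x1 x2) : Enc S E (t52 b) (v52 x1 x2) := enc_sq hS (h32 h)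

def t53 (b : Bx) : TM := tadd (t51 b) (t52 b)
noncomputable def v53 (x1 x2 : ℝ) : ℝ := v51 x1 x2 + v52 x1 x2
theorem h53 (h : In b E x1 x2) : Enc S E (t53 b) (v53 x1 x2) := enc_add (h51 h) (h52 h)

def t57 (b : Bx) : TM := tadd (t6 b) (t22 b)
noncomputable def v57 (x1 x2 : ℝ) : ℝ := v6 x1 x2 + v22 x1 x2
theorem h57 (h : In b E x1 x2) : Enc S E (t57 b) (v57 x1 x2) := enc_add (h6 h) (h22 h)

def t60 (b : Bx) : TM := tadd (t28 b) (t29 b)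
noncomputable def v60 (x1 x2 : ℝ) : ℝ := v28 x1 x2 + v29 x1 x2
theorem h60 (h : In b E x1 x2) : Enc S E (t60 b) (v60 x1 x2) := enc_add (h28 h) (h29 h)

def t61 (b : Bx) : TM := tinv S (t60 b)
noncomputable def v61 (x1 x2 : ℝ) : ℝ := (v60 x1 x2)⁻¹
theorem h61 (h : In b E x1 x2) : Enc S E (t61 b) (v61 x1 x2) := enc_inv hS (h60 h)

def t62 (b : Bx) : TM := tmul S (t57 b) (t61 b)
noncomputable def v62 (x1 x2 : ℝ) : ℝ := v57 x1 x2 * v61 x1 x2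
theorem h62 (h : In b E x1 x2) : Enc S E (t62 b) (v62 x1 x2) := enc_mul hS (h57 h) (h61 h)

def t64 (b : Bx) : TM := tsub (t11 b) (t29 b)
noncomputable def v64 (x1 x2 : ℝ) : ℝ := v11 x1 x2 - v29 x1 x2
theorem h64 (h : In b E x1 x2) : Enc S E (t64 b) (v64 x1 x2) := enc_sub (h11 h) (h29 h)

def t66 (b : Bx) : TM := tadd (t31 b) (t64 b)
noncomputable def v66 (x1 x2 : ℝ) : ℝ := v31 x1 x2 + v64 x1 x2
theorem h66 (h : In b E x1 x2) : Enc S E (t66 b) (v66 x1 x2) := enc_add (h31 h) (h64 h)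

def t67 (b : Bx) : TM := tmul S (t62 b) (t66 b)
noncomputable def v67 (x1 x2 : ℝ) : ℝ := v62 x1 x2 * v66 x1 x2
theorem h67 (h : In b E x1 x2) : Enc S E (t67 b) (v67 x1 x2) := enc_mul hS (h62 h) (h66 h)

def t68 (b : Bx) : TM := tadd (t0 b) (t22 b)
noncomputable def v68 (x1 x2 : ℝ) : ℝ := v0 x1 x2 + v22 x1 x2
theorem h68 (h : In b E x1 x2) : Enc S E (t68 b) (v68 x1 x2) := enc_add (h0 h) (h22 h)

def t70 (b : Bx) : TM := tadd (t32 b) (t68 b)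
noncomputable def v70 (x1 x2 : ℝ) : ℝ := v32 x1 x2 + v68 x1 x2
theorem h70 (h : In b E x1 x2) : Enc S E (t70 b) (v70 x1 x2) := enc_add (h32 h) (h68 h)

def t72 (b : Bx) : TM := tadd (t67 b) (t70 b)
noncomputable def v72 (x1 x2 : ℝ) : ℝ := v67 x1 x2 + v70 x1 x2
theorem h72 (h : In b E x1 x2) : Enc S E (t72 b) (v72 x1 x2) := enc_add (h67 h) (h70 h)

def t74 (b : Bx) : TM := kx2a_t (t31 b) (t32 b) (t1 b)
noncomputable def v74 (x1 x2 : ℝ) : ℝ := kx2a_v (v31 x1 x2) (v32 x1 x2) (v1 x1 x2)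
theorem h74 (h : In b E x1 x2) : Enc S E (t74 b) (v74 x1 x2) := kx2a_enc (h31 h) (h32 h) (h1 h)

def t75 (b : Bx) : TM := f2p_t (t32 b)
noncomputable def v75 (x1 x2 : ℝ) : ℝ := f2p_v (v32 x1 x2)
theorem h75 (h : In b E x1 x2) : Enc S E (t75 b) (v75 x1 x2) := f2p_enc (h32 h)

def t76 (b : Bx) : TM := tsub (t75 b) (t31 b)
noncomputable def v76 (x1 x2 : ℝ) : ℝ := v75 x1 x2 - v31 x1 x2
theorem h76 (h : In b E x1 x2) : Enc S E (t76 b) (v76 x1 x2) := enc_sub (h75 h) (h31 h)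

def t77 (b : Bx) : TM := tadd (t75 b) (t31 b)
noncomputable def v77 (x1 x2 : ℝ) : ℝ := v75 x1 x2 + v31 x1 x2
theorem h77 (h : In b E x1 x2) : Enc S E (t77 b) (v77 x1 x2) := enc_add (h75 h) (h31 h)

def t80 (b : Bx) : TM := tmul S (t72 b) (t74 b)
noncomputable def v80 (x1 x2 : ℝ) : ℝ := v72 x1 x2 * v74 x1 x2
theorem h80 (h : In b E x1 x2) : Enc S E (t80 b) (v80 x1 x2) := enc_mul hS (h72 h) (h74 h)

def t81 (b : Bx) : TM := tadd (t62 b) (t80 b)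
noncomputable def v81 (x1 x2 : ℝ) : ℝ := v62 x1 x2 + v80 x1 x2
theorem h81 (h : In b E x1 x2) : Enc S E (t81 b) (v81 x1 x2) := enc_add (h62 h) (h80 h)

def t82 (b : Bx) : TM := tmul S (t11 b) (t6 b)
noncomputable def v82 (x1 x2 : ℝ) : ℝ := v11 x1 x2 * v6 x1 x2
theorem h82 (h : In b E x1 x2) : Enc S E (t82 b) (v82 x1 x2) := enc_mul hS (h11 h) (h6 h)

def t83 (b : Bx) : TM := tmul S (t28 b) (t0 b)
noncomputable def v83 (x1 x2 : ℝ) : ℝ := v28 x1 x2 * v0 x1 x2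
theorem h83 (h : In b E x1 x2) : Enc S E (t83 b) (v83 x1 x2) := enc_mul hS (h28 h) (h0 h)

def t85 (b : Bx) : TM := tadd (t82 b) (t83 b)
noncomputable def v85 (x1 x2 : ℝ) : ℝ := v82 x1 x2 + v83 x1 x2
theorem h85 (h : In b E x1 x2) : Enc S E (t85 b) (v85 x1 x2) := enc_add (h82 h) (h83 h)

def t86 (b : Bx) : TM := tinv S (t7 b)
noncomputable def v86 (x1 x2 : ℝ) : ℝ := (v7 x1 x2)⁻¹
theorem h86 (h : In b E x1 x2) : Enc S E (t86 b) (v86 x1 x2) := enc_inv hS (h7 h)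

def t87 (b : Bx) : TM := tmul S (t85 b) (t86 b)
noncomputable def v87 (x1 x2 : ℝ) : ℝ := v85 x1 x2 * v86 x1 x2
theorem h87 (h : In b E x1 x2) : Enc S E (t87 b) (v87 x1 x2) := enc_mul hS (h85 h) (h86 h)

def t88 (b : Bx) : TM := tsub (t87 b) (t13 b)
noncomputable def v88 (x1 x2 : ℝ) : ℝ := v87 x1 x2 - v13 x1 x2
theorem h88 (h : In b E x1 x2) : Enc S E (t88 b) (v88 x1 x2) := enc_sub (h87 h) (h13 h)

def t91 (b : Bx) : TM := tmul S (t62 b) (t0 b)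
noncomputable def v91 (x1 x2 : ℝ) : ℝ := v62 x1 x2 * v0 x1 x2
theorem h91 (h : In b E x1 x2) : Enc S E (t91 b) (v91 x1 x2) := enc_mul hS (h62 h) (h0 h)

def t94 (b : Bx) : TM := tsub (t11 b) (t91 b)
noncomputable def v94 (x1 x2 : ℝ) : ℝ := v11 x1 x2 - v91 x1 x2
theorem h94 (h : In b E x1 x2) : Enc S E (t94 b) (v94 x1 x2) := enc_sub (h11 h) (h91 h)

def t96 (b : Bx) : TM := tmul S (t94 b) (t86 b)
noncomputable def v96 (x1 x2 : ℝ) : ℝ := v94 x1 x2 * v86 x1 x2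
theorem h96 (h : In b E x1 x2) : Enc S E (t96 b) (v96 x1 x2) := enc_mul hS (h94 h) (h86 h)

def t98 (b : Bx) : TM := tsub (t6 b) (t8 b)
noncomputable def v98 (x1 x2 : ℝ) : ℝ := v6 x1 x2 - v8 x1 x2
theorem h98 (h : In b E x1 x2) : Enc S E (t98 b) (v98 x1 x2) := enc_sub (h6 h) (h8 h)

def t99 (b : Bx) : TM := tsub (t32 b) (t8 b)
noncomputable def v99 (x1 x2 : ℝ) : ℝ := v32 x1 x2 - v8 x1 x2
theorem h99 (h : In b E x1 x2) : Enc S E (t99 b) (v99 x1 x2) := enc_sub (h32 h) (h8 h)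

def t100 (b : Bx) : TM := tnat 2 (t29 b)
noncomputable def v100 (x1 x2 : ℝ) : ℝ := ((2 : ℕ) : ℝ) * v29 x1 x2
theorem h100 (h : In b E x1 x2) : Enc S E (t100 b) (v100 x1 x2) := enc_nat 2 (h29 h)

def t101 (b : Bx) : TM := tnat 2 (t62 b)
noncomputable def v101 (x1 x2 : ℝ) : ℝ := ((2 : ℕ) : ℝ) * v62 x1 x2
theorem h101 (h : In b E x1 x2) : Enc S E (t101 b) (v101 x1 x2) := enc_nat 2 (h62 h)

def t103 (b : Bx) : TM := tadd (t3 b) (t100 b)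
noncomputable def v103 (x1 x2 : ℝ) : ℝ := v3 x1 x2 + v100 x1 x2
theorem h103 (h : In b E x1 x2) : Enc S E (t103 b) (v103 x1 x2) := enc_add (h3 h) (h100 h)

def t104 (b : Bx) : TM := tmul S (t7 b) (t22 b)
noncomputable def v104 (x1 x2 : ℝ) : ℝ := v7 x1 x2 * v22 x1 x2
theorem h104 (h : In b E x1 x2) : Enc S E (t104 b) (v104 x1 x2) := enc_mul hS (h7 h) (h22 h)

def t105 (b : Bx) : TM := tsub (t104 b) (t29 b)
noncomputable def v105 (x1 x2 : ℝ) : ℝ := v104 x1 x2 - v29 x1 x2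
theorem h105 (h : In b E x1 x2) : Enc S E (t105 b) (v105 x1 x2) := enc_sub (h104 h) (h29 h)

def t106 (b : Bx) : TM := tadd (t7 b) (t62 b)
noncomputable def v106 (x1 x2 : ℝ) : ℝ := v7 x1 x2 + v62 x1 x2
theorem h106 (h : In b E x1 x2) : Enc S E (t106 b) (v106 x1 x2) := enc_add (h7 h) (h62 h)

def t107 (b : Bx) : TM := tmul S (t103 b) (t105 b)
noncomputable def v107 (x1 x2 : ℝ) : ℝ := v103 x1 x2 * v105 x1 x2
theorem h107 (h : In b E x1 x2) : Enc S E (t107 b) (v107 x1 x2) := enc_mul hS (h103 h) (h105 h)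

def t108 (b : Bx) : TM := tmul S (t101 b) (t43 b)
noncomputable def v108 (x1 x2 : ℝ) : ℝ := v101 x1 x2 * v43 x1 x2
theorem h108 (h : In b E x1 x2) : Enc S E (t108 b) (v108 x1 x2) := enc_mul hS (h101 h) (h43 h)

def t110 (b : Bx) : TM := tmul S (t103 b) (t106 b)
noncomputable def v110 (x1 x2 : ℝ) : ℝ := v103 x1 x2 * v106 x1 x2
theorem h110 (h : In b E x1 x2) : Enc S E (t110 b) (v110 x1 x2) := enc_mul hS (h103 h) (h106 h)

def t111 (b : Bx) : TM := tsub (t110 b) (t108 b)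
noncomputable def v111 (x1 x2 : ℝ) : ℝ := v110 x1 x2 - v108 x1 x2
theorem h111 (h : In b E x1 x2) : Enc S E (t111 b) (v111 x1 x2) := enc_sub (h110 h) (h108 h)

def t112 (b : Bx) : TM := tadd (t3 b) (t104 b)
noncomputable def v112 (x1 x2 : ℝ) : ℝ := v3 x1 x2 + v104 x1 x2
theorem h112 (h : In b E x1 x2) : Enc S E (t112 b) (v112 x1 x2) := enc_add (h3 h) (h104 h)

def t113 (b : Bx) : TM := tsub (t112 b) (t29 b)
noncomputable def v113 (x1 x2 : ℝ) : ℝ := v112 x1 x2 - v29 x1 x2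
theorem h113 (h : In b E x1 x2) : Enc S E (t113 b) (v113 x1 x2) := enc_sub (h112 h) (h29 h)

def t114 (b : Bx) : TM := tnat 2 (t113 b)
noncomputable def v114 (x1 x2 : ℝ) : ℝ := ((2 : ℕ) : ℝ) * v113 x1 x2
theorem h114 (h : In b E x1 x2) : Enc S E (t114 b) (v114 x1 x2) := enc_nat 2 (h113 h)

def t115 (b : Bx) : TM := tnat 2 (t106 b)
noncomputable def v115 (x1 x2 : ℝ) : ℝ := ((2 : ℕ) : ℝ) * v106 x1 x2
theorem h115 (h : In b E x1 x2) : Enc S E (t115 b) (v115 x1 x2) := enc_nat 2 (h106 h)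

def t116 (b : Bx) : TM := tinv S (t114 b)
noncomputable def v116 (x1 x2 : ℝ) : ℝ := (v114 x1 x2)⁻¹
theorem h116 (h : In b E x1 x2) : Enc S E (t116 b) (v116 x1 x2) := enc_inv hS (h114 h)

def t117 (b : Bx) : TM := tmul S (t48 b) (t116 b)
noncomputable def v117 (x1 x2 : ℝ) : ℝ := v48 x1 x2 * v116 x1 x2
theorem h117 (h : In b E x1 x2) : Enc S E (t117 b) (v117 x1 x2) := enc_mul hS (h48 h) (h116 h)

def t118 (b : Bx) : TM := tmul S (t115 b) (t117 b)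
noncomputable def v118 (x1 x2 : ℝ) : ℝ := v115 x1 x2 * v117 x1 x2
theorem h118 (h : In b E x1 x2) : Enc S E (t118 b) (v118 x1 x2) := enc_mul hS (h115 h) (h117 h)

def t121 (b : Bx) : TM := tmul S (t111 b) (t48 b)
noncomputable def v121 (x1 x2 : ℝ) : ℝ := v111 x1 x2 * v48 x1 x2
theorem h121 (h : In b E x1 x2) : Enc S E (t121 b) (v121 x1 x2) := enc_mul hS (h111 h) (h48 h)

def t122 (b : Bx) : TM := tmul S (t107 b) (t118 b)
noncomputable def v122 (x1 x2 : ℝ) : ℝ := v107 x1 x2 * v118 x1 x2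
theorem h122 (h : In b E x1 x2) : Enc S E (t122 b) (v122 x1 x2) := enc_mul hS (h107 h) (h118 h)

def t126 (b : Bx) : TM := tsub (t122 b) (t121 b)
noncomputable def v126 (x1 x2 : ℝ) : ℝ := v122 x1 x2 - v121 x1 x2
theorem h126 (h : In b E x1 x2) : Enc S E (t126 b) (v126 x1 x2) := enc_sub (h122 h) (h121 h)

def t127 (b : Bx) : TM := tsub (t81 b) (t126 b)
noncomputable def v127 (x1 x2 : ℝ) : ℝ := v81 x1 x2 - v126 x1 x2
theorem h127 (h : In b E x1 x2) : Enc S E (t127 b) (v127 x1 x2) := enc_sub (h81 h) (h126 h)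

def t129 (b : Bx) : TM := tmul S (t0 b) (t126 b)
noncomputable def v129 (x1 x2 : ℝ) : ℝ := v0 x1 x2 * v126 x1 x2
theorem h129 (h : In b E x1 x2) : Enc S E (t129 b) (v129 x1 x2) := enc_mul hS (h0 h) (h126 h)

def t130 (b : Bx) : TM := tsub (t129 b) (t39 b)
noncomputable def v130 (x1 x2 : ℝ) : ℝ := v129 x1 x2 - v39 x1 x2
theorem h130 (h : In b E x1 x2) : Enc S E (t130 b) (v130 x1 x2) := enc_sub (h129 h) (h39 h)

def t131 (b : Bx) : TM := tmul S (t98 b) (t127 b)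
noncomputable def v131 (x1 x2 : ℝ) : ℝ := v98 x1 x2 * v127 x1 x2
theorem h131 (h : In b E x1 x2) : Enc S E (t131 b) (v131 x1 x2) := enc_mul hS (h98 h) (h127 h)

def t132 (b : Bx) : TM := tsub (t130 b) (t131 b)
noncomputable def v132 (x1 x2 : ℝ) : ℝ := v130 x1 x2 - v131 x1 x2
theorem h132 (h : In b E x1 x2) : Enc S E (t132 b) (v132 x1 x2) := enc_sub (h130 h) (h131 h)

def t135 (b : Bx) : TM := tsub (t8 b) (t6 b)
noncomputable def v135 (x1 x2 : ℝ) : ℝ := v8 x1 x2 - v6 x1 x2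
theorem h135 (h : In b E x1 x2) : Enc S E (t135 b) (v135 x1 x2) := enc_sub (h8 h) (h6 h)

def t137 (b : Bx) : TM := tsub (t8 b) (t32 b)
noncomputable def v137 (x1 x2 : ℝ) : ℝ := v8 x1 x2 - v32 x1 x2
theorem h137 (h : In b E x1 x2) : Enc S E (t137 b) (v137 x1 x2) := enc_sub (h8 h) (h32 h)

def t138 (b : Bx) : TM := qn_t (t99 b) (t135 b) (t96 b) (t132 b) (t127 b)
noncomputable def v138 (x1 x2 : ℝ) : ℝ := qn_v (v99 x1 x2) (v135 x1 x2) (v96 x1 x2) (v132 x1 x2) (v127 x1 x2)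
theorem h138 (h : In b E x1 x2) : Enc S E (t138 b) (v138 x1 x2) := qn_enc (h99 h) (h135 h) (h96 h) (h132 h) (h127 h)

def t139 (b : Bx) : TM := tscale 1 4 (t7 b)
noncomputable def v139 (x1 x2 : ℝ) : ℝ := ((1 : ℕ) : ℝ) / ((4 : ℕ) : ℝ) * v7 x1 x2
theorem h139 (h : In b E x1 x2) : Enc S E (t139 b) (v139 x1 x2) := enc_scale 1 (by norm_num) (h7 h)

def t141 (b : Bx) : TM := tsub (t0 b) (t139 b)
noncomputable def v141 (x1 x2 : ℝ) : ℝ := v0 x1 x2 - v139 x1 x2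
theorem h141 (h : In b E x1 x2) : Enc S E (t141 b) (v141 x1 x2) := enc_sub (h0 h) (h139 h)

def t143 (b : Bx) : TM := tsub (t139 b) (t6 b)
noncomputable def v143 (x1 x2 : ℝ) : ℝ := v139 x1 x2 - v6 x1 x2
theorem h143 (h : In b E x1 x2) : Enc S E (t143 b) (v143 x1 x2) := enc_sub (h139 h) (h6 h)

def t144 (b : Bx) : TM := tscale 3 4 (t7 b)
noncomputable def v144 (x1 x2 : ℝ) : ℝ := ((3 : ℕ) : ℝ) / ((4 : ℕ) : ℝ) * v7 x1 x2
theorem h144 (h : In b E x1 x2) : Enc S E (t144 b) (v144 x1 x2) := enc_scale 3 (by norm_num) (h7 h)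

def t146 (b : Bx) : TM := tsub (t32 b) (t144 b)
noncomputable def v146 (x1 x2 : ℝ) : ℝ := v32 x1 x2 - v144 x1 x2
theorem h146 (h : In b E x1 x2) : Enc S E (t146 b) (v146 x1 x2) := enc_sub (h32 h) (h144 h)

def t147 (_b : Bx) : TM := tconst (Nat.div (Nat.mul 1 S) 16) 0 1
noncomputable def v147 (_x1 _x2 : ℝ) : ℝ := ((1 : ℕ) : ℝ) / ((16 : ℕ) : ℝ)
theorem h147 (_h : In b E x1 x2) : Enc S E (t147 b) (v147 x1 x2) := enc_rat E 1 (by norm_num)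

def t148 (b : Bx) : TM := tsub (t25 b) (t147 b)
noncomputable def v148 (x1 x2 : ℝ) : ℝ := v25 x1 x2 - v147 x1 x2
theorem h148 (h : In b E x1 x2) : Enc S E (t148 b) (v148 x1 x2) := enc_sub (h25 h) (h147 h)

def t149 (b : Bx) : TM := tsub (t22 b) (t6 b)
noncomputable def v149 (x1 x2 : ℝ) : ℝ := v22 x1 x2 - v6 x1 x2
theorem h149 (h : In b E x1 x2) : Enc S E (t149 b) (v149 x1 x2) := enc_sub (h22 h) (h6 h)

def t150 (b : Bx) : TM := tsub (t149 b) (t147 b)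
noncomputable def v150 (x1 x2 : ℝ) : ℝ := v149 x1 x2 - v147 x1 x2
theorem h150 (h : In b E x1 x2) : Enc S E (t150 b) (v150 x1 x2) := enc_sub (h149 h) (h147 h)

def t151 (b : Bx) : TM := tsub (t32 b) (t7 b)
noncomputable def v151 (x1 x2 : ℝ) : ℝ := v32 x1 x2 - v7 x1 x2
theorem h151 (h : In b E x1 x2) : Enc S E (t151 b) (v151 x1 x2) := enc_sub (h32 h) (h7 h)

def t152 (b : Bx) : TM := tsub (t3 b) (t53 b)
noncomputable def v152 (x1 x2 : ℝ) : ℝ := v3 x1 x2 - v53 x1 x2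
theorem h152 (h : In b E x1 x2) : Enc S E (t152 b) (v152 x1 x2) := enc_sub (h3 h) (h53 h)

def t153 (b : Bx) : TM := tadd (t88 b) (t13 b)
noncomputable def v153 (x1 x2 : ℝ) : ℝ := v88 x1 x2 + v13 x1 x2
theorem h153 (h : In b E x1 x2) : Enc S E (t153 b) (v153 x1 x2) := enc_add (h88 h) (h13 h)

def t154 (b : Bx) : TM := tneg (t153 b)
noncomputable def v154 (x1 x2 : ℝ) : ℝ := -(v153 x1 x2)
theorem h154 (h : In b E x1 x2) : Enc S E (t154 b) (v154 x1 x2) := enc_neg (h153 h)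

def g0 (b : Bx) : Bool := and (pos (t72 b)) (and (pos (t27 b)) (and (pos (t60 b)) (and (pos (t76 b)) (and (pos (t77 b)) (and (pos (t47 b)) (and (pos (t114 b)) (and (pos (t37 b)) (or (pos (t149 b)) (pos (t138 b))))))))))

def l0 (b : Bx) : Nat := cond (g0 b) 0 (pickb 1 (t138 b) b)

def P0 (x1 x2 : ℝ) : Prop := 0 < v72 x1 x2 ∧ 0 < v27 x1 x2 ∧ 0 < v60 x1 x2 ∧ 0 < v76 x1 x2 ∧ 0 < v77 x1 x2 ∧ 0 < v47 x1 x2 ∧ 0 < v114 x1 x2 ∧ 0 < v37 x1 x2 ∧ (0 < v149 x1 x2 ∨ 0 < v138 x1 x2)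

theorem l0_sound (h : In b E x1 x2) (e : l0 b = 0) : P0 x1 x2 := by
  have e1 : g0 b = true := by
    rcases e2 : g0 b with _ | _
    · unfold l0 at e; rw [e2, cond_false] at e; exact absurd e (pickb_ne _ _ _)
    · rfl
  exact ⟨pos_sound hS (h72 h) (Bool.and_eq_true_iff.mp e1).1, ⟨pos_sound hS (h27 h) (Bool.and_eq_true_iff.mp (Bool.and_eq_true_iff.mp e1).2).1, ⟨pos_sound hS (h60 h) (Bool.and_eq_true_iff.mp (Bool.and_eq_true_iff.mp (Bool.and_eq_true_iff.mp e1).2).2).1, ⟨pos_sound hS (h76 h) (Bool.and_eq_true_iff.mp (Bool.and_eq_true_iff.mp (Bool.and_eq_true_iff.mp (Bool.and_eq_true_iff.mp e1).2).2).2).1, ⟨pos_sound hS (h77 h) (Bool.and_eq_true_iff.mp (Bool.and_eq_true_iff.mp (Bool.and_eq_true_iff.mp (Bool.and_eq_true_iff.mp (Bool.and_eq_true_iff.mp e1).2).2).2).2).1, ⟨pos_sound hS (h47 h) (Bool.and_eq_true_iff.mp (Bool.and_eq_true_iff.mp (Bool.and_eq_true_iff.mp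 (Bool.and_eq_true_iff.mp (Bool.and_eq_true_iff.mp (Bool.and_eq_true_iff.mp e1).2).2).2).2).2).1, ⟨pos_sound hS (h114 h) (Bool.and_eq_true_iff.mp (Bool.and_eq_true_iff.mp (Bool.and_eq_true_iff.mp (Bool.and_eq_true_iff.mp (Bool.and_eq_true_iff.mp (Bool.and_eq_true_iff.mp (Bool.and_eq_true_iff.mp e1).2).2).2).2).2).2).1, ⟨pos_sound hS (h37 h) (Bool.and_eq_true_iff.mp (Bool.and_eq_true_iff.mp (Bool.and_eq_true_iff.mp (Bool.and_eq_true_iff.mp (Bool.and_eq_true_iff.mp (Bool.and_eq_true_iff.mp (Bool.and_eq_true_iff.mp (Bool.and_eq_true_iff.mp e1).2).2).2).2).2).2).2).1, ((Bool.or_eq_true_iff.mp (Bool.and_eq_true_iff.mp (Bool.and_eq_true_iff.mp (Bool.and_eq_true_iff.mp (Bool.and_eq_true_iff.mp (Bool.and_eq_true_iff.mp (Bool.and_eq_true_iff.mp (Bool.and_eq_true_iff.mp (Bool.and_eq_true_iff.mp e1).2).2).2).2).2).2).2).2).imp (fun a => pos_sound hS (h149 h) a) (fun a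 => pos_sound hS (h138 h) a))⟩⟩⟩⟩⟩⟩⟩⟩

def g1 (b : Bx) : Bool := or (pos (t141 b)) (or (pos (t143 b)) (or (pos (t98 b)) (or (pos (t137 b)) (or (pos (t146 b)) (or (pos (t148 b)) (or (pos (t150 b)) (or (pos (t151 b)) (or (pos (t152 b)) (pos (t154 b))))))))))

def l1 (b : Bx) : Nat := cond (g1 b) 0 (l0 b)

def P1 (x1 x2 : ℝ) : Prop := (0 < v141 x1 x2 ∨ 0 < v143 x1 x2 ∨ 0 < v98 x1 x2 ∨ 0 < v137 x1 x2 ∨ 0 < v146 x1 x2 ∨ 0 < v148 x1 x2 ∨ 0 < v150 x1 x2 ∨ 0 < v151 x1 x2 ∨ 0 < v152 x1 x2 ∨ 0 < v154 x1 x2) ∨ (P0 x1 x2)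

theorem l1_sound (h : In b E x1 x2) (e : l1 b = 0) : P1 x1 x2 := by
  unfold l1 at e
  rcases e1 : g1 b with _ | _
  · rw [e1, cond_false] at e
    have z0 : l0 b = 0 := e
    exact Or.inr (l0_sound h z0)
  · exact Or.inl (((Bool.or_eq_true_iff.mp e1).imp (fun a => pos_sound hS (h141 h) a) (fun a => ((Bool.or_eq_true_iff.mp a).imp (fun a => pos_sound hS (h143 h) a) (fun a => ((Bool.or_eq_true_iff.mp a).imp (fun a => pos_sound hS (h98 h) a) (fun a => ((Bool.or_eq_true_iff.mp a).imp (fun a => pos_sound hS (h137 h) a) (fun a => ((Bool.or_eq_true_iff.mp a).imp (fun a => pos_sound hS (h146 h) a) (fun a => ((Bool.or_eq_true_iff.mp a).imp (fun a => pos_sound hS (h148 h) a) (fun a => ((Bool.or_eq_true_iff.mp a).imp (fun a => pos_sound hS (h150 h) a) (fun a => ((Bool.or_eq_true_iff.mp a).imp (fun a => pos_sound hS (h151 h) a) (fun a => ((Bool.or_eq_true_iff.mp a).imp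 (fun a => pos_sound hS (h152 h) a) (fun a => pos_sound hS (h154 h) a)))))))))))))))))))

def f (b : Bx) : Nat := l1 b

/-- the statement -/
def Q (x1 x2 : ℝ) : Prop := P1 x1 x2

theorem f_sound (b : Bx) (hb : f b = 0) (x1 x2 : ℝ) (hm : Mem S b x1 x2) : Q x1 x2 := by
  obtain ⟨E, h⟩ := pt_of_mem hm
  have h : In b E x1 x2 := h
  unfold f at hb
  have e := hb
  have z1 : l1 b = 0 := e
  exact (l1_sound h z1)

/-- the box -/
def b0 : Bx := ⟨232471924, 0, 232471926, 268972327, 0, 268972328⟩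

theorem chk_all {n : ℕ} {b : Bx} (h : chk f n b = true) (x1 x2 : ℝ) (hm : Mem S b x1 x2) : Q x1 x2 :=
  chk_sound (fun b hb x1 x2 hm => f_sound b hb x1 x2 hm) n b h x1 x2 hm


end Pool.Agent.Strip051.LB.ChA00U_pm_012a
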