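import Pool.Agent.Strip051.LB.ChA00U_pm_012a.Defs
import Pool.Agent.Strip051.LB.Slope
import Pool.Agent.Strip051.LB.Star
import Pool.Agent.Strip051.LB.Cf

/-! # LINE tight chart ChA00U_pm_012a: slopes -/

namespace Pool.Agent.Strip051.LB.ChA00U_pm_012a

open Pool.Agent.Strip051.LB Pool.Agent.Strip051.LB.Fn Pool.Agent.Strip051.LB.Fc Pool.Agent.Strip051.LB.Fd Pool.Agent.StripNear

set_option maxRecDepth 100000
set_option linter.all false

noncomputable def v30 (x1 x2 : ℝ) : ℝ := -(v28 x1 x2)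

noncomputable def v40 (x1 x2 : ℝ) : ℝ := ((2 : ℕ) : ℝ) * v28 x1 x2

noncomputable def v41 (x1 x2 : ℝ) : ℝ := v3 x1 x2 + v40 x1 x2

noncomputable def v44 (x1 x2 : ℝ) : ℝ := v41 x1 x2 * v43 x1 x2

noncomputable def v49 (x1 x2 : ℝ) : ℝ := v44 x1 x2 * v48 x1 x2

noncomputable def v50 (x1 x2 : ℝ) : ℝ := -(v49 x1 x2)

noncomputable def v54 (x1 x2 : ℝ) : ℝ := v53 x1 x2 - v3 x1 x2

noncomputable def v56 (x1 x2 : ℝ) : ℝ := (v22 x1 x2) ^ 2

noncomputable def v58 (x1 x2 : ℝ) : ℝ := v3 x1 x2 - v56 x1 x2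

noncomputable def v59 (x1 x2 : ℝ) : ℝ := -(v57 x1 x2)

noncomputable def v63 (x1 x2 : ℝ) : ℝ := -(v62 x1 x2)

noncomputable def v65 (x1 x2 : ℝ) : ℝ := (v64 x1 x2) ^ 2

noncomputable def v69 (x1 x2 : ℝ) : ℝ := (v68 x1 x2) ^ 2

noncomputable def v71 (x1 x2 : ℝ) : ℝ := v65 x1 x2 + v69 x1 x2

noncomputable def v73 (x1 x2 : ℝ) : ℝ := v71 x1 x2 - v3 x1 x2

noncomputable def v78 (x1 x2 : ℝ) : ℝ := v54 x1 x2 * v74 x1 x2

noncomputable def v79 (x1 x2 : ℝ) : ℝ := v31 x1 x2 + v78 x1 x2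

noncomputable def v89 (x1 x2 : ℝ) : ℝ := v11 x1 x2 * v22 x1 x2

noncomputable def v90 (x1 x2 : ℝ) : ℝ := v29 x1 x2 * v0 x1 x2

noncomputable def v92 (x1 x2 : ℝ) : ℝ := -(v91 x1 x2)

noncomputable def v93 (x1 x2 : ℝ) : ℝ := v89 x1 x2 + v90 x1 x2

noncomputable def v95 (x1 x2 : ℝ) : ℝ := v93 x1 x2 * v86 x1 x2

noncomputable def v97 (x1 x2 : ℝ) : ℝ := v95 x1 x2 - v13 x1 x2

noncomputable def v102 (x1 x2 : ℝ) : ℝ := -(v101 x1 x2)

noncomputable def v119 (x1 x2 : ℝ) : ℝ := -(v118 x1 x2)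

noncomputable def v120 (x1 x2 : ℝ) : ℝ := v107 x1 x2 * v116 x1 x2

noncomputable def v124 (x1 x2 : ℝ) : ℝ := v121 x1 x2 - v122 x1 x2

noncomputable def v125 (x1 x2 : ℝ) : ℝ := -(v120 x1 x2)

noncomputable def v128 (x1 x2 : ℝ) : ℝ := v22 x1 x2 - v8 x1 x2

noncomputable def v155 (x1 x2 : ℝ) : ℝ := v68 x1 x2 - v8 x1 x2

structure Cx (x1 x2 : ℝ) : Prop where
  hc : v11 x1 x2 ^ 2 + x1 ^ 2 = 1
  p27 : 0 < v27 x1 x2
  p60 : 0 < v60 x1 x2
  p76 : 0 < v76 x1 x2
  p77 : 0 < v77 x1 x2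
  p47 : 0 < v47 x1 x2
  p114 : 0 < v114 x1 x2
  p37 : 0 < v37 x1 x2

variable {x1 x2 : ℝ}

theorem s3q (x1 x2 : ℝ) : v7 x1 x2 ^ 2 = 3 := by
  rw [v7]; exact s3sq

theorem s3ne (x1 x2 : ℝ) : v7 x1 x2 ≠ 0 := by
  rw [v7]; positivity

theorem s6 (c : Cx x1 x2) : v6 x1 x2 = v22 x1 x2 + v25 x1 x2 * v3 x1 x2 := by
  simp only [v3, v25]
  (try push_cast)
  ring

theorem s26 (c : Cx x1 x2) : v26 x1 x2 = v56 x1 x2 + v25 x1 x2 * v57 x1 x2 := by
  have a0 : (v6 x1 x2 + v22 x1 x2) * v6 x1 x2 = (v6 x1 x2 + v22 x1 x2) * (v22 x1 x2 + v25 x1 x2 * v3 x1 x2) := congrArg (fun z => (v6 x1 x2 + v22 x1 x2) * z) (s6 c)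
  try simp only [v0, v3, v6, v19, v22, v25, v26, v56, v57] at a0
  simp only [v0, v3, v6, v19, v22, v25, v26, v56, v57]
  (try push_cast at a0 ⊢)
  first | linear_combination a0 | ring | grind

theorem s27 (c : Cx x1 x2) : v27 x1 x2 = v58 x1 x2 + v25 x1 x2 * v59 x1 x2 := by
  have a1 := s26 c
  try simp only [v0, v3, v6, v19, v22, v25, v27, v57, v58, v59] at a1
  simp only [v0, v3, v6, v19, v22, v25, v27, v57, v58, v59]
  (try push_cast at a1 ⊢)
  first | linear_combination -a1 | ring | grind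

theorem q28 (c : Cx x1 x2) : v58 x1 x2 = v29 x1 x2 ^ 2 := by
  have hc := c.hc
  have h3 := s3q x1 x2
  simp only [v0, v3, v8, v15, v17, v19, v21, v22, v29, v56, v58] at hc ⊢
  push_cast at hc ⊢
  grind

theorem s28 (c : Cx x1 x2) : v28 x1 x2 = v29 x1 x2 + v25 x1 x2 * v63 x1 x2 := by
  have a0 := s27 c
  have e : 0 < Real.sqrt (v27 x1 x2) + v29 x1 x2 := by
    have e := c.p60
    simp only [v3, v15, v27, v28, v29, v60] at e ⊢
    push_cast at e ⊢
    linarith
  have b := sl_sqrt a0 (q28 c) (le_of_lt c.p27) e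
  clear a0
  try simp only [v0, v3, v6, v15, v19, v22, v25, v27, v28, v29, v57, v58, v59, v60, v61, v62, v63] at b
  simp only [v0, v3, v6, v15, v19, v22, v25, v27, v28, v29, v57, v58, v59, v60, v61, v62, v63]
  (try push_cast at b ⊢)
  first | linear_combination b | ring | grind

theorem s31 (c : Cx x1 x2) : v31 x1 x2 = v64 x1 x2 + v25 x1 x2 * v62 x1 x2 := by
  have a1 := s28 c
  try simp only [v0, v6, v15, v19, v22, v25, v29, v31, v63, v64] at a1
  simp only [v0, v6, v15, v19, v22, v25, v29, v31, v63, v64]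
  (try push_cast at a1 ⊢)
  first | linear_combination -a1 | ring | grind

theorem s32 (c : Cx x1 x2) : v32 x1 x2 = v68 x1 x2 + v25 x1 x2 * v3 x1 x2 := by
  have a1 := s6 c
  try simp only [v0, v3, v6, v19, v22, v25, v32, v68] at a1
  simp only [v0, v3, v6, v19, v22, v25, v32, v68]
  (try push_cast at a1 ⊢)
  first | linear_combination a1 | ring | grind

theorem s40 (c : Cx x1 x2) : v40 x1 x2 = v100 x1 x2 + v25 x1 x2 * v102 x1 x2 := by
  have a0 := s28 c
  try simp only [v0, v6, v15, v19, v22, v25, v29, v40, v63, v100, v101, v102] at a0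
  simp only [v0, v6, v15, v19, v22, v25, v29, v40, v63, v100, v101, v102]
  (try push_cast at a0 ⊢)
  first | linear_combination (2 : ℝ) * a0 | ring | grind

theorem s41 (c : Cx x1 x2) : v41 x1 x2 = v103 x1 x2 + v25 x1 x2 * v102 x1 x2 := by
  have a1 := s40 c
  try simp only [v0, v3, v6, v15, v19, v22, v25, v29, v40, v41, v100, v101, v102, v103] at a1
  simp only [v0, v3, v6, v15, v19, v22, v25, v29, v40, v41, v100, v101, v102, v103]
  (try push_cast at a1 ⊢)
  first | linear_combination a1 | ring | grind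

theorem s42 (c : Cx x1 x2) : v42 x1 x2 = v104 x1 x2 + v25 x1 x2 * v7 x1 x2 := by
  have a1 : (v7 x1 x2) * v6 x1 x2 = (v7 x1 x2) * (v22 x1 x2 + v25 x1 x2 * v3 x1 x2) := congrArg (fun z => (v7 x1 x2) * z) (s6 c)
  try simp only [v0, v3, v6, v7, v19, v22, v25, v42, v104] at a1
  simp only [v0, v3, v6, v7, v19, v22, v25, v42, v104]
  (try push_cast at a1 ⊢)
  first | linear_combination a1 | ring | grind

theorem s43 (c : Cx x1 x2) : v43 x1 x2 = v105 x1 x2 + v25 x1 x2 * v106 x1 x2 := by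
  have a0 := s42 c
  have a1 := s28 c
  try simp only [v0, v6, v7, v15, v19, v22, v25, v29, v43, v63, v105, v106] at a0
  try simp only [v0, v6, v7, v15, v19, v22, v25, v29, v43, v63, v105, v106] at a1
  simp only [v0, v6, v7, v15, v19, v22, v25, v29, v43, v63, v105, v106]
  (try push_cast at a0 a1 ⊢)
  first | linear_combination a0 - a1 | ring | grind

theorem s44 (c : Cx x1 x2) : v44 x1 x2 = v107 x1 x2 + v25 x1 x2 * v111 x1 x2 := by
  have a0 : (v43 x1 x2) * v41 x1 x2 = (v43 x1 x2) * (v103 x1 x2 + v25 x1 x2 * v102 x1 x2) := congrArg (fun z => (v43 x1 x2) * z) (s41 c)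
  have a1 : (v103 x1 x2) * v43 x1 x2 = (v103 x1 x2) * (v105 x1 x2 + v25 x1 x2 * v106 x1 x2) := congrArg (fun z => (v103 x1 x2) * z) (s43 c)
  try simp only [v0, v3, v6, v7, v15, v19, v22, v25, v29, v40, v41, v43, v44, v100, v101, v102, v103, v105, v106, v107, v108, v110, v111] at a0
  try simp only [v0, v3, v6, v7, v15, v19, v22, v25, v29, v40, v41, v43, v44, v100, v101, v102, v103, v105, v106, v107, v108, v110, v111] at a1
  simp only [v0, v3, v6, v7, v15, v19, v22, v25, v29, v40, v41, v43, v44, v100, v101, v102, v103, v105, v106, v107, v108, v110, v111]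
  (try push_cast at a0 a1 ⊢)
  first | linear_combination a0 + a1 | ring | grind

theorem s45 (c : Cx x1 x2) : v45 x1 x2 = v112 x1 x2 + v25 x1 x2 * v7 x1 x2 := by
  have a1 := s42 c
  try simp only [v0, v3, v6, v7, v19, v22, v25, v45, v112] at a1
  simp only [v0, v3, v6, v7, v19, v22, v25, v45, v112]
  (try push_cast at a1 ⊢)
  first | linear_combination a1 | ring | grind

theorem s46 (c : Cx x1 x2) : v46 x1 x2 = v113 x1 x2 + v25 x1 x2 * v106 x1 x2 := by
  have a0 := s45 c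
  have a1 := s28 c
  try simp only [v0, v3, v6, v7, v15, v19, v22, v25, v29, v45, v46, v63, v106, v112, v113] at a0
  try simp only [v0, v3, v6, v7, v15, v19, v22, v25, v29, v45, v46, v63, v106, v112, v113] at a1
  simp only [v0, v3, v6, v7, v15, v19, v22, v25, v29, v45, v46, v63, v106, v112, v113]
  (try push_cast at a0 a1 ⊢)
  first | linear_combination a0 - a1 | ring | grind

theorem s47 (c : Cx x1 x2) : v47 x1 x2 = v114 x1 x2 + v25 x1 x2 * v115 x1 x2 := by
  have a0 := s46 c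
  try simp only [v0, v3, v6, v7, v15, v19, v22, v25, v29, v45, v46, v47, v106, v112, v113, v114, v115] at a0
  simp only [v0, v3, v6, v7, v15, v19, v22, v25, v29, v45, v46, v47, v106, v112, v113, v114, v115]
  (try push_cast at a0 ⊢)
  first | linear_combination (2 : ℝ) * a0 | ring | grind

theorem s48 (c : Cx x1 x2) : v48 x1 x2 = v116 x1 x2 + v25 x1 x2 * v119 x1 x2 := by
  have a0 := s47 c
  have b := sl_inv a0 (c.p47).ne' (c.p114).ne'
  clear a0
  try simp only [v0, v3, v6, v7, v15, v19, v22, v25, v29, v45, v46, v47, v48, v106, v112, v113, v114, v115, v116, v117, v118, v119] at b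
  simp only [v0, v3, v6, v7, v15, v19, v22, v25, v29, v45, v46, v47, v48, v106, v112, v113, v114, v115, v116, v117, v118, v119]
  (try push_cast at b ⊢)
  first | linear_combination b | ring | grind

theorem s49 (c : Cx x1 x2) : v49 x1 x2 = v120 x1 x2 + v25 x1 x2 * v124 x1 x2 := by
  have a0 : (v48 x1 x2) * v44 x1 x2 = (v48 x1 x2) * (v107 x1 x2 + v25 x1 x2 * v111 x1 x2) := congrArg (fun z => (v48 x1 x2) * z) (s44 c)
  have a1 : (v107 x1 x2) * v48 x1 x2 = (v107 x1 x2) * (v116 x1 x2 + v25 x1 x2 * v119 x1 x2) := congrArg (fun z => (v107 x1 x2) * z) (s48 c)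
  try simp only [v0, v6, v19, v22, v25, v49, v111, v119, v120, v121, v122, v124] at a0
  try simp only [v0, v6, v19, v22, v25, v49, v111, v119, v120, v121, v122, v124] at a1
  simp only [v0, v6, v19, v22, v25, v49, v111, v119, v120, v121, v122, v124]
  (try push_cast at a0 a1 ⊢)
  first | linear_combination a0 + a1 | ring | grind

theorem s50 (c : Cx x1 x2) : v50 x1 x2 = v125 x1 x2 + v25 x1 x2 * v126 x1 x2 := by
  have a0 := s49 c
  try simp only [v0, v6, v19, v22, v25, v50, v124, v125, v126] at a0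
  simp only [v0, v6, v19, v22, v25, v50, v124, v125, v126]
  (try push_cast at a0 ⊢)
  first | linear_combination -a0 | ring | grind

theorem s51 (c : Cx x1 x2) : v51 x1 x2 = v65 x1 x2 + v25 x1 x2 * v67 x1 x2 := by
  have a0 : (v31 x1 x2 + v64 x1 x2) * v31 x1 x2 = (v31 x1 x2 + v64 x1 x2) * (v64 x1 x2 + v25 x1 x2 * v62 x1 x2) := congrArg (fun z => (v31 x1 x2 + v64 x1 x2) * z) (s31 c)
  try simp only [v0, v6, v15, v19, v22, v25, v29, v31, v51, v64, v65, v66, v67] at a0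
  simp only [v0, v6, v15, v19, v22, v25, v29, v31, v51, v64, v65, v66, v67]
  (try push_cast at a0 ⊢)
  first | linear_combination a0 | ring | grind

theorem s52 (c : Cx x1 x2) : v52 x1 x2 = v69 x1 x2 + v25 x1 x2 * v70 x1 x2 := by
  have a0 : (v32 x1 x2 + v68 x1 x2) * v32 x1 x2 = (v32 x1 x2 + v68 x1 x2) * (v68 x1 x2 + v25 x1 x2 * v3 x1 x2) := congrArg (fun z => (v32 x1 x2 + v68 x1 x2) * z) (s32 c)
  try simp only [v0, v3, v6, v19, v22, v25, v32, v52, v68, v69, v70] at a0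
  simp only [v0, v3, v6, v19, v22, v25, v32, v52, v68, v69, v70]
  (try push_cast at a0 ⊢)
  first | linear_combination a0 | ring | grind

theorem s53 (c : Cx x1 x2) : v53 x1 x2 = v71 x1 x2 + v25 x1 x2 * v72 x1 x2 := by
  have a0 := s51 c
  have a1 := s52 c
  try simp only [v0, v6, v19, v22, v25, v32, v53, v68, v70, v71, v72] at a0
  try simp only [v0, v6, v19, v22, v25, v32, v53, v68, v70, v71, v72] at a1
  simp only [v0, v6, v19, v22, v25, v32, v53, v68, v70, v71, v72]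
  (try push_cast at a0 a1 ⊢)
  first | linear_combination a0 + a1 | ring | grind

theorem s54 (c : Cx x1 x2) : v54 x1 x2 = v73 x1 x2 + v25 x1 x2 * v72 x1 x2 := by
  have a0 := s53 c
  try simp only [v0, v3, v6, v19, v22, v25, v32, v53, v54, v68, v70, v71, v72, v73] at a0
  simp only [v0, v3, v6, v19, v22, v25, v32, v53, v54, v68, v70, v71, v72, v73]
  (try push_cast at a0 ⊢)
  first | linear_combination a0 | ring | grind

theorem s82 (c : Cx x1 x2) : v82 x1 x2 = v89 x1 x2 + v25 x1 x2 * v11 x1 x2 := by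
  have a1 : (v11 x1 x2) * v6 x1 x2 = (v11 x1 x2) * (v22 x1 x2 + v25 x1 x2 * v3 x1 x2) := congrArg (fun z => (v11 x1 x2) * z) (s6 c)
  try simp only [v0, v3, v6, v19, v22, v25, v82, v89] at a1
  simp only [v0, v3, v6, v19, v22, v25, v82, v89]
  (try push_cast at a1 ⊢)
  first | linear_combination a1 | ring | grind

theorem s83 (c : Cx x1 x2) : v83 x1 x2 = v90 x1 x2 + v25 x1 x2 * v92 x1 x2 := by
  have a0 : (v0 x1 x2) * v28 x1 x2 = (v0 x1 x2) * (v29 x1 x2 + v25 x1 x2 * v63 x1 x2) := congrArg (fun z => (v0 x1 x2) * z) (s28 c)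
  try simp only [v0, v6, v15, v19, v22, v25, v29, v63, v83, v90, v91, v92] at a0
  simp only [v0, v6, v15, v19, v22, v25, v29, v63, v83, v90, v91, v92]
  (try push_cast at a0 ⊢)
  first | linear_combination a0 | ring | grind

theorem s85 (c : Cx x1 x2) : v85 x1 x2 = v93 x1 x2 + v25 x1 x2 * v94 x1 x2 := by
  have a0 := s82 c
  have a1 := s83 c
  try simp only [v0, v6, v19, v22, v25, v85, v92, v93, v94] at a0
  try simp only [v0, v6, v19, v22, v25, v85, v92, v93, v94] at a1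
  simp only [v0, v6, v19, v22, v25, v85, v92, v93, v94]
  (try push_cast at a0 a1 ⊢)
  first | linear_combination a0 + a1 | ring | grind

theorem s87 (c : Cx x1 x2) : v87 x1 x2 = v95 x1 x2 + v25 x1 x2 * v96 x1 x2 := by
  have a0 : (v86 x1 x2) * v85 x1 x2 = (v86 x1 x2) * (v93 x1 x2 + v25 x1 x2 * v94 x1 x2) := congrArg (fun z => (v86 x1 x2) * z) (s85 c)
  try simp only [v0, v6, v19, v22, v25, v85, v87, v93, v94, v95, v96] at a0
  simp only [v0, v6, v19, v22, v25, v85, v87, v93, v94, v95, v96]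
  (try push_cast at a0 ⊢)
  first | linear_combination a0 | ring | grind

theorem s88 (c : Cx x1 x2) : v88 x1 x2 = v97 x1 x2 + v25 x1 x2 * v96 x1 x2 := by
  have a0 := s87 c
  try simp only [v0, v6, v13, v19, v22, v25, v88, v97] at a0
  simp only [v0, v6, v13, v19, v22, v25, v88, v97]
  (try push_cast at a0 ⊢)
  first | linear_combination a0 | ring | grind

theorem s98 (c : Cx x1 x2) : v98 x1 x2 = v128 x1 x2 + v25 x1 x2 * v3 x1 x2 := by
  have a0 := s6 c
  try simp only [v0, v3, v6, v7, v8, v19, v22, v25, v98, v128] at a0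
  simp only [v0, v3, v6, v7, v8, v19, v22, v25, v98, v128]
  (try push_cast at a0 ⊢)
  first | linear_combination a0 | ring | grind

theorem s99 (c : Cx x1 x2) : v99 x1 x2 = v155 x1 x2 + v25 x1 x2 * v3 x1 x2 := by
  have a0 := s32 c
  try simp only [v0, v3, v6, v7, v8, v19, v22, v25, v32, v68, v99, v155] at a0
  simp only [v0, v3, v6, v7, v8, v19, v22, v25, v32, v68, v99, v155]
  (try push_cast at a0 ⊢)
  first | linear_combination a0 | ring | grind

theorem bD (c : Cx x1 x2) : v73 x1 x2 = 0 := by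
  have hc := c.hc
  have h3 := s3q x1 x2
  simp only [v0, v3, v8, v15, v17, v19, v21, v22, v29, v64, v65, v68, v69, v71, v73] at hc ⊢
  push_cast at hc ⊢
  grind

theorem sD (c : Cx x1 x2) : v54 x1 x2 = v25 x1 x2 * v72 x1 x2 := by
  have h := s54 c
  rw [bD c, zero_add] at h
  exact h

theorem s79 (c : Cx x1 x2) : v79 x1 x2 = v64 x1 x2 + v25 x1 x2 * v81 x1 x2 := by
  have hA := s31 c
  have hd := sD c
  have hK : v74 x1 x2 * v54 x1 x2 = v74 x1 x2 * (v25 x1 x2 * v72 x1 x2) := congrArg (fun z => v74 x1 x2 * z) hd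
  try simp only [v0, v3, v6, v15, v19, v22, v25, v29, v31, v32, v53, v54, v64, v68, v70, v72, v78, v79, v80, v81] at hA
  try simp only [v0, v3, v6, v15, v19, v22, v25, v29, v31, v32, v53, v54, v64, v68, v70, v72, v78, v79, v80, v81] at hK
  simp only [v0, v3, v6, v15, v19, v22, v25, v29, v31, v32, v53, v54, v64, v68, v70, v72, v78, v79, v80, v81]
  (try push_cast at hA hK ⊢)
  first | linear_combination (hA + hK) | grind

theorem bE (c : Cx x1 x2) : v97 x1 x2 = 0 := by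
  have hc := c.hc
  have h3 := s3q x1 x2
  have g0 : v7 x1 x2 ≠ 0 := s3ne x1 x2
  simp only [v0, v8, v13, v15, v17, v19, v21, v22, v29, v86, v89, v90, v93, v95, v97] at hc ⊢
  push_cast at hc ⊢
  grind

theorem hE (c : Cx x1 x2) : v88 x1 x2 = v25 x1 x2 * v96 x1 x2 := by
  have h := s88 c
  rw [bE c, zero_add] at h
  exact h

theorem bS (c : Cx x1 x2) : v64 x1 x2 - v39 x1 x2 - v125 x1 x2 = 0 := by
  have hc := c.hc
  have h3 := s3q x1 x2
  have g0 := (c.p37).ne'
  have g1 := (c.p114).ne'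
  simp only [v0, v3, v8, v15, v17, v19, v21, v22, v29, v33, v34, v35, v36, v37, v38, v39, v64, v100, v103, v104, v105, v107, v112, v113, v114, v116, v120, v125] at hc g0 g1 ⊢
  push_cast at hc g0 g1 ⊢
  grind

theorem hS (c : Cx x1 x2) : v79 x1 x2 - v39 x1 x2 - v50 x1 x2 = v25 x1 x2 * v127 x1 x2 := by
  have a3 := s79 c
  have a2 := s50 c
  have b := bS c
  try simp only [v0, v6, v15, v19, v22, v25, v29, v31, v50, v64, v79, v81, v125, v126, v127] at a3
  try simp only [v0, v6, v15, v19, v22, v25, v29, v31, v50, v64, v79, v81, v125, v126, v127] at a2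
  try simp only [v0, v6, v15, v19, v22, v25, v29, v31, v50, v64, v79, v81, v125, v126, v127] at b
  try simp only [v0, v6, v15, v19, v22, v25, v29, v31, v50, v64, v79, v81, v125, v126, v127]
  (try push_cast at a3 a2 b ⊢)
  first | linear_combination a3 - a2 + b | grind

theorem bC (c : Cx x1 x2) : v0 x1 x2 * v125 x1 x2 - v128 x1 x2 * v39 x1 x2 = 0 := by
  have hc := c.hc
  have h3 := s3q x1 x2
  have g0 := (c.p37).ne'
  have g1 := (c.p114).ne'
  simp only [v0, v3, v8, v15, v17, v19, v21, v22, v29, v33, v34, v35, v36, v37, v38, v39, v100, v103, v104, v105, v107, v112, v113, v114, v116, v120, v125, v128] at hc g0 g1 ⊢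
  push_cast at hc g0 g1 ⊢
  grind

theorem hC (c : Cx x1 x2) : v0 x1 x2 * v50 x1 x2 - v98 x1 x2 * v39 x1 x2 = v25 x1 x2 * v130 x1 x2 := by
  have a2 : v0 x1 x2 * v50 x1 x2 = v0 x1 x2 * (v125 x1 x2 + v25 x1 x2 * v126 x1 x2) := congrArg (fun z => v0 x1 x2 * z) (s50 c)
  have a3 : v39 x1 x2 * v98 x1 x2 = v39 x1 x2 * (v128 x1 x2 + v25 x1 x2 * v3 x1 x2) := congrArg (fun z => v39 x1 x2 * z) (s98 c)
  have b := bC c
  try simp only [v0, v3, v6, v7, v8, v19, v22, v25, v50, v98, v125, v126, v128, v129, v130] at a2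
  try simp only [v0, v3, v6, v7, v8, v19, v22, v25, v50, v98, v125, v126, v128, v129, v130] at a3
  try simp only [v0, v3, v6, v7, v8, v19, v22, v25, v50, v98, v125, v126, v128, v129, v130] at b
  simp only [v0, v3, v6, v7, v8, v19, v22, v25, v50, v98, v125, v126, v128, v129, v130]
  (try push_cast at a2 a3 b ⊢)
  first | linear_combination a2 - a3 + b | grind

theorem hT (x1 x2 : ℝ) : v99 x1 x2 = v0 x1 x2 + v98 x1 x2 := by
  simp only [v0, v6, v7, v8, v32, v98, v99]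
  push_cast
  ring

theorem hG (c : Cx x1 x2) : (-v98 x1 x2) * v79 x1 x2 - v99 x1 x2 * (-v50 x1 x2) = v25 x1 x2 * v132 x1 x2 := by
  have b := hC c
  have m0 : v98 x1 x2 * (v79 x1 x2 - v39 x1 x2 - v50 x1 x2) = v98 x1 x2 * (v25 x1 x2 * v127 x1 x2) := congrArg (fun z => v98 x1 x2 * z) (hS c)
  have m1 : v50 x1 x2 * v99 x1 x2 = v50 x1 x2 * (v0 x1 x2 + v98 x1 x2) := congrArg (fun z => v50 x1 x2 * z) (hT x1 x2)
  try simp only [v0, v6, v7, v8, v19, v22, v25, v31, v32, v50, v79, v81, v98, v99, v126, v127, v130, v131, v132] at b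
  try simp only [v0, v6, v7, v8, v19, v22, v25, v31, v32, v50, v79, v81, v98, v99, v126, v127, v130, v131, v132] at m0
  try simp only [v0, v6, v7, v8, v19, v22, v25, v31, v32, v50, v79, v81, v98, v99, v126, v127, v130, v131, v132] at m1
  try simp only [v0, v6, v7, v8, v19, v22, v25, v31, v32, v50, v79, v81, v98, v99, v126, v127, v130, v131, v132]
  (try push_cast at b m0 m1 ⊢)
  first | linear_combination b - m0 + m1 | grind

theorem core (c : Cx x1 x2) (hW : 0 ≤ v25 x1 x2) (hWQ : 0 ≤ v25 x1 x2 * v138 x1 x2) (h1 : 0 ≤ v99 x1 x2) (h2 : 0 ≤ (-v98 x1 x2)) (h3 : v99 x1 x2 + (-v98 x1 x2) ≤ Pool.Agent.StripNear.h0) :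
    0 ≤ starn_v (v88 x1 x2) (v99 x1 x2) ((-v98 x1 x2)) (v79 x1 x2) ((-v50 x1 x2)) (v39 x1 x2) := by
  have hD : v79 x1 x2 + (-v50 x1 x2) - v39 x1 x2 = v25 x1 x2 * v127 x1 x2 := by
    have b := hS c
    linear_combination b
  have k := starn_ge hW h1 h2 h3 (hE c) hD (hG c)
  have f1 : (-v98 x1 x2) = v135 x1 x2 := by
    simp only [v0, v6, v7, v8, v32, v98, v99, v135]
    try (push_cast; ring)
  refine le_trans hWQ (le_trans (le_of_eq ?_) k)
  rw [v138]
  rw [f1]

end Pool.Agent.Strip051.LB.ChA00U_pm_012a
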